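import Pool.Agent.R906.QExB

/-!
# Operational classes which are not generated by primarily strong substacks

There is a smooth, connected, properly stable toric stack `𝒳 = [U / G_m ^ 5]`, with `U` an open
subset of `𝔸 ^ 8`, whose good moduli space `π : 𝒳 → X` is a separated (toric) scheme of dimension
three, and a line bundle `L` on `X` such that `π^* c₁(L)` is not a linear combination of classes of
primarily strong divisors of `𝒳`.
-/

set_option autoImplicit false

open MvPolynomial Pool.Agent.R906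

theorem Pool.Agent.Results.MP_1b5a48_ag.ChernNotPrimarilyStrong.result (K : Type*) [Field K] :
    ∃ (w : Fin 8 → Fin 5 → ℤ) (g : Fin 4 → MvPolynomial (Fin 8) K) (d : Fin 4 → Fin 5 → ℤ)
      (hg : ∀ i, g i ∈ weightedHomogeneousSubmodule K w (d i)),
      letI : GradedAlgebra (weightedHomogeneousSubmodule K w) := weightedGradedAlgebra K w
      Glues (weightedHomogeneousSubmodule K w) g ∧
      SeparatedModuli (weightedHomogeneousSubmodule K w) g d hg ∧
      HasTrivialOpen (weightedHomogeneousSubmodule K w) g ∧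
      ∃ (m : Fin 5 → ℤ) (s : MvPolynomial (Fin 8) K)
        (D : IntegralSubstack (weightedHomogeneousSubmodule K w) g 1 →₀ ℚ),
        Descends (weightedHomogeneousSubmodule K w) g d m ∧
        s ∈ weightedHomogeneousSubmodule K w m ∧ s ≠ 0 ∧ (∀ Y, D Y = Y.ord s) ∧
        ∀ c : IntegralSubstack (weightedHomogeneousSubmodule K w) g 1 →₀ ℚ,
          (∀ Y ∈ c.support, Y.IsPrimarilyStrong) → ¬ RatEquivZero (D - c) := by
  have hs0 : (X 0 * X 7 : MvPolynomial (Fin 8) K) ≠ 0 := mul_ne_zero (X_ne_zero _) (X_ne_zero _)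
  refine ⟨ExB.wt, Tor.chart ExB.cone K, Tor.chartDeg ExB.wt ExB.cone, Tor.chart_mem _ _,
    ExB.ex_glues, ExB.ex_separated, ExB.ex_trivialOpen, ExB.mB, X 0 * X 7, ExB.D K,
    ExB.ex_descends, ExB.s_mem, hs0, ExB.D_eq, ?_⟩
  intro c hc
  have : c = 0 := by
    ext Y
    by_contra hY
    exact ExB.not_pst Y (hc Y (Finsupp.mem_support_iff.mpr hY))
  rw [this, sub_zero]
  exact Tor.not_ratEquivZero ExB.hc 0 (ExB.D K) hs0 ExB.s_mem (by decide) ExB.D_eq
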